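import Pool.Agent.Helper20.PL.Pair
import Pool.Agent.Helper20.NB.ClassC

/-! # Polar points: the torsion part -/

open Finset

namespace Pool.Agent.Helper20.PL
open Pool.Agent.Helper11.ZP Pool.Agent.Helper11.ZU Pool.Agent.Helper20.ZD Pool.Agent.Helper11.LC
  Pool.Agent.Helper69.DL Pool.Agent.Helper36.DL Pool.Agent.Helper22.DL Pool.Agent.Helper20.DL
  Pool.Agent.Helper20.NB

variable {n : ℕ} {v : AbsoluteValue ℂ ℝ}

/-- `H(z ^ a, z ^ b) = 0` modulo `p` on `V`, at the points at which `z ^ a`, `z ^ b` are integral -/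
def HoldsInt (v : AbsoluteValue ℂ ℝ) (p : ℕ) (H : MvPolynomial (Fin 2) ℤ) (V : Set (Fin n → ℂ))
    (a b : Fin n → ℤ) : Prop :=
  ∀ z ∈ V, (∀ i, z i = 0 → 0 ≤ a i ∧ 0 ≤ b i) → v (∏ i, z i ^ a i) ≤ 1 → v (∏ i, z i ^ b i) ≤ 1 →
    v (ev H (∏ i, z i ^ a i) (∏ i, z i ^ b i)) ≤ v (p : ℂ)

/-- what is known at the place `v` on the set `V`: the relations between the monomials with exponents of
absolute value at most `K`, and the tropical relation between two coordinates of different absolute values -/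
structure LocalPol (v : AbsoluteValue ℂ ℝ) (p K : ℕ) (V : Set (Fin n → ℂ)) : Prop where
  /-- the relations -/
  rel : ∀ a b : Fin n → ℤ, (∀ i, |a i| ≤ K) → (∀ i, |b i| ≤ K) →
    (∀ s t : ℤ, (∀ i, s * a i + t * b i = 0) → s = 0 ∧ t = 0) →
      ∃ H : MvPolynomial (Fin 2) ℤ, GoodRel v p H ∧ HoldsInt v p H V a b
  /-- two coordinates of different absolute values -/
  trop : ∀ z ∈ V, ∀ e f, e ≠ f → 1 ≤ v (z f) → v (z f) < v (z e) →
    ∃ al be : ℕ, be < al ∧ al ≤ K ∧ v (z e) ^ be = v (z f) ^ al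

/-- the exponent vector of the unit `z_e ^ be z_f ^ (- al)` -/
def bvec (e f : Fin n) (al be : ℕ) (i : Fin n) : ℤ := if i = e then be else if i = f then -(al : ℤ) else 0

lemma prod_bvec {z : Fin n → ℂ} {e f : Fin n} (hef : e ≠ f) (al be : ℕ) :
    ∏ i, z i ^ bvec e f al be i = z e ^ be * (z f ^ al)⁻¹ := by
  classical
  rw [← Finset.mul_prod_erase _ _ (mem_univ e), ← Finset.mul_prod_erase _ _ (mem_erase.2 ⟨hef.symm, mem_univ f⟩),
    Finset.prod_eq_one, mul_one]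
  · rw [bvec, if_pos rfl, bvec, if_neg hef.symm, if_pos rfl, zpow_natCast, zpow_neg, zpow_natCast]
  · intro x hx
    rw [mem_erase, mem_erase] at hx
    rw [bvec, if_neg hx.2.1, if_neg hx.1, zpow_zero]

lemma sum_bvec {e f : Fin n} (hef : e ≠ f) (al be : ℕ) : ∑ i, bvec e f al be i = (be : ℤ) - al := by
  classical
  rw [← Finset.add_sum_erase _ _ (mem_univ e), ← Finset.add_sum_erase _ _ (mem_erase.2 ⟨hef.symm, mem_univ f⟩),
    Finset.sum_eq_zero, add_zero]
  · rw [bvec, if_pos rfl, bvec, if_neg hef.symm, if_pos rfl]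
    ring
  · intro x hx
    rw [mem_erase, mem_erase] at hx
    rw [bvec, if_neg hx.2.1, if_neg hx.1]

lemma abs_bvec {e f : Fin n} {al be K : ℕ} (h1 : be < al) (h2 : al ≤ K) (i : Fin n) :
    |bvec e f al be i| ≤ K := by
  unfold bvec
  split_ifs
  · rw [abs_of_nonneg (by positivity)]
    exact_mod_cast (h1.le.trans h2)
  · rw [abs_neg, abs_of_nonneg (by positivity)]
    exact_mod_cast h2
  · rw [abs_zero]
    positivity

lemma prod_zpow_const {x : ℂ} (hx : x ≠ 0) (c : Fin n → ℤ) (T : Finset (Fin n)) :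
    ∏ i ∈ T, x ^ c i = x ^ (∑ i ∈ T, c i) := by
  classical
  induction T using Finset.induction_on with
  | empty => simp
  | insert i T hi ih => rw [Finset.prod_insert hi, Finset.sum_insert hi, ih, zpow_add₀ hx]

/-- a vector of sum zero is independent of a vector with one entry -/
lemma indep_single {c : Fin n → ℤ} (hc0 : c ≠ 0) (hc : ∑ i, c i = 0) (e : Fin n) {r : ℤ} (hr : r ≠ 0) (s t : ℤ)
    (h : ∀ i, s * (Pi.single e r : Fin n → ℤ) i + t * c i = 0) : s = 0 ∧ t = 0 := by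
  classical
  have h1 : ∑ i, (s * (Pi.single e r : Fin n → ℤ) i + t * c i) = 0 := Finset.sum_eq_zero fun i _ => h i
  rw [Finset.sum_add_distrib, ← Finset.mul_sum, ← Finset.mul_sum, hc, mul_zero, add_zero, Finset.sum_pi_single'] at h1
  simp only [mem_univ, if_true] at h1
  have hs : s = 0 := (mul_eq_zero.1 h1).resolve_right hr
  refine ⟨hs, ?_⟩
  by_contra ht
  apply hc0
  funext i
  have h2 := h i
  rw [hs, zero_mul, zero_add] at h2
  exact (mul_eq_zero.1 h2).resolve_left ht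

lemma indep_bvec {c : Fin n → ℤ} (hc0 : c ≠ 0) (hc : ∑ i, c i = 0) {e f : Fin n} (hef : e ≠ f) {al be : ℕ}
    (hab : be < al) (s t : ℤ) (h : ∀ i, s * bvec e f al be i + t * c i = 0) : s = 0 ∧ t = 0 := by
  have h1 : ∑ i, (s * bvec e f al be i + t * c i) = 0 := Finset.sum_eq_zero fun i _ => h i
  rw [Finset.sum_add_distrib, ← Finset.mul_sum, ← Finset.mul_sum, hc, mul_zero, add_zero, sum_bvec hef] at h1
  have hs : s = 0 := (mul_eq_zero.1 h1).resolve_right (by omega)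
  refine ⟨hs, ?_⟩
  by_contra ht
  apply hc0
  funext i
  have h2 := h i
  rw [hs, zero_mul, zero_add] at h2
  exact (mul_eq_zero.1 h2).resolve_left ht

lemma indep_single_bvec {e f : Fin n} (hef : e ≠ f) {al be : ℕ} (hab : be < al) (s t : ℤ)
    (h : ∀ i, s * (Pi.single e (-1) : Fin n → ℤ) i + t * bvec e f al be i = 0) : s = 0 ∧ t = 0 := by
  have h1 := h f
  rw [Pi.single_eq_of_ne hef.symm, mul_zero, zero_add, bvec, if_neg hef.symm, if_pos rfl] at h1
  have ht : t = 0 := (mul_eq_zero.1 h1).resolve_right (by omega)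
  refine ⟨?_, ht⟩
  have h2 := h e
  rw [Pi.single_eq_same, ht, zero_mul, add_zero] at h2
  linarith

/-- the torsion part, for one choice of the exceptional coordinates and of the exponents -/
lemma polar_one (hv : IsNonarchimedean v) {p : ℕ} (hp : p.Prime) (hvp : v (p : ℂ) < 1)
    {e f : Fin n} (hef : e ≠ f) {al be : ℕ} (hab : be < al) {c : Fin n → ℤ} (hcsum : ∑ i, c i = 0)
    {H₁ H₂ F : MvPolynomial (Fin 2) ℤ}
    (g1 : GoodRel v p H₁) (g2 : GoodRel v p H₂) (g3 : GoodRel v p F) {M : ℕ} (hM : 0 < M) :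
    ∃ B : ℕ, ∀ (V : Set (Fin n → ℂ)), HoldsInt v p H₁ V (Pi.single e (-1)) c →
      HoldsInt v p H₂ V (bvec e f al be) c → HoldsInt v p F V (Pi.single e (-1)) (bvec e f al be) →
      ∀ (m : ℕ) (lam a τ : Fin n → ℂ), Norm v p m lam a → (∀ i, τ i ^ M = 1) →
      (∀ i, v ((p : ℂ) ^ m * lam i - τ i) ≤ v (p : ℂ)) → ∀ z ∈ V, (∀ i, z i = 0 → c i = 0) →
      1 ≤ v (z f) → v (z f) < v (z e) → v (z e) ^ be = v (z f) ^ al → ∀ (N' : ℕ),
      (CyclicIsog N' (lam e * z e + a e) (lam f * z f + a f) ∨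
        CyclicIsog N' (lam f * z f + a f) (lam e * z e + a e)) → ∀ (ζ : ℂ) (g : ℕ), 0 < g →
        IsPrimitiveRoot ζ g → v (∏ i, z i ^ c i - (∏ i, lam i ^ (-c i)) * ζ) ≤ v (p : ℂ) → g ≤ B := by
  classical
  have hp0 : 0 < v (p : ℂ) := AbsoluteValue.pos_iff v |>.2 (by exact_mod_cast hp.ne_zero)
  have hpne : (p : ℂ) ≠ 0 := by exact_mod_cast hp.ne_zero
  set D := max H₁.totalDegree (max H₂.totalDegree F.totalDegree) with hD
  have hpD : 64 * D ^ 2 ≤ p := by
    have e1 := g1.large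
    have e2 := g2.large
    have e3 := g3.large
    have key : ∀ t : ℕ, 64 * (t + 1) ^ 2 ≤ p → 64 * t ^ 2 ≤ p := fun t ht =>
      le_trans (Nat.mul_le_mul_left 64 (Nat.pow_le_pow_left (Nat.le_succ t) 2)) ht
    rcases max_choice H₁.totalDegree (max H₂.totalDegree F.totalDegree) with h | h
    · rw [hD, h]; exact key _ e1
    · rcases max_choice H₂.totalDegree F.totalDegree with h' | h'
      · rw [hD, h, h']; exact key _ e2
      · rw [hD, h, h']; exact key _ e3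
  have hp4 : 4 ≤ p := by
    have e1 := g1.large
    have e2 : 1 ≤ (H₁.totalDegree + 1) ^ 2 := Nat.one_le_pow _ _ (by omega)
    omega
  have hdeg : ∀ {H : MvPolynomial (Fin 2) ℤ}, H.totalDegree ≤ D → ∀ m ∈ H.support, m 0 ≤ D ∧ m 1 ≤ D := by
    intro H hH m hm
    have := supp_le hH hm
    omega
  obtain ⟨G₀, hG⟩ := exc_boundedP hv hp hp4 hvp hpD hab
    (hdeg (le_max_left _ _)) (rowUnit_of hv hp hvp g1)
    (hdeg ((le_max_left _ _).trans (le_max_right _ _))) g2.noCoset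
    (fun m hm => (hdeg ((le_max_right _ _).trans (le_max_right _ _)) m hm).2) (botUnit_of hv hp hvp g3)
  refine ⟨G₀ * M, ?_⟩
  intro V h1 h2 h3 m lam a τ haff hτM hτn z hz hzc hf hfe hval N' hN' ζ g hg hζ hs
  have hc0 : 0 < v (p : ℂ) ^ m := pow_pos hp0 m
  have hcp : v (p : ℂ) ^ m ≤ v (p : ℂ) := haff.pow_le hp0 hvp
  have hl : ∀ i, v (lam i) * v (p : ℂ) ^ m = 1 := fun i => by
    have := haff.lam_one i
    rwa [map_mul, map_pow, mul_comm] at this
  have ha : ∀ i, v (a i / lam i) ≤ v (p : ℂ) := fun i => by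
    have e1 : a i / lam i = ((p : ℂ) ^ m * a i) / ((p : ℂ) ^ m * lam i) :=
      (mul_div_mul_left _ _ (pow_ne_zero m hpne)).symm
    rw [e1, map_div₀, haff.lam_one i, div_one]
    exact haff.a_le i
  have hτ1 : ∀ i, v (τ i) = 1 := fun i => val_root hM (hτM i)
  have hτ0 : ∀ i, τ i ≠ 0 := fun i => ne_of_v one_pos (hτ1 i).ge
  -- the unit `p ^ m lam_i / τ_i` near one
  set A : Fin n → ℂ := fun i => (p : ℂ) ^ m * lam i / τ i with hA
  have hA1 : ∀ i, v (A i - 1) ≤ v (p : ℂ) := fun i => by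
    have e1 : A i - 1 = ((p : ℂ) ^ m * lam i - τ i) / τ i := by
      rw [hA]
      have := hτ0 i
      field_simp
    rw [e1, map_div₀, hτ1, div_one]
    exact hτn i
  have hlA : ∀ i, (p : ℂ) ^ m * lam i = τ i * A i := fun i => by
    rw [hA]
    have := hτ0 i
    field_simp
  have hAv : ∀ i, v (A i) = 1 := fun i => v_one_of_near hv ((hA1 i).trans_lt hvp)
  have hA0 : ∀ i, A i ≠ 0 := fun i => ne_of_v one_pos (hAv i).ge
  have hze : z e ≠ 0 := ne_of_v one_pos (hf.trans hfe.le)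
  have hzf : z f ≠ 0 := ne_of_v one_pos hf
  have vze : 1 < v (z e) := hf.trans_lt hfe
  -- the monomials
  set w := (z e)⁻¹ with hw
  set y := z e ^ be * (z f ^ al)⁻¹ with hy
  set s := ∏ i, z i ^ c i with hsdef
  have vw : v w < 1 := by rw [hw, map_inv₀]; exact inv_lt_one_of_one_lt₀ vze
  have vy : v y = 1 := by
    rw [hy, map_mul, map_pow, map_inv₀, map_pow, hval, mul_inv_cancel₀]
    exact pow_ne_zero _ (v.pos hzf).ne'
  have vζ : v ζ = 1 := val_root hg hζ.pow_eq_one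
  -- the product of the constants
  have hprod : ∏ i, lam i ^ (-c i) = (∏ i, τ i ^ (-c i)) * ∏ i, A i ^ (-c i) := by
    rw [← Finset.prod_mul_distrib]
    have e1 : ∏ i, ((p : ℂ) ^ m) ^ (-c i) = 1 := by
      rw [prod_zpow_const (pow_ne_zero m hpne), Finset.sum_neg_distrib, hcsum, neg_zero, zpow_zero]
    rw [← one_mul (∏ i, lam i ^ (-c i)), ← e1, ← Finset.prod_mul_distrib]
    refine Finset.prod_congr rfl fun i _ => ?_
    rw [← mul_zpow, hlA, mul_zpow]
  have nearA : ∀ T : Finset (Fin n), v (∏ i ∈ T, A i ^ (-c i) - 1) ≤ v (p : ℂ) := by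
    intro T
    induction T using Finset.induction_on with
    | empty => rw [Finset.prod_empty, sub_self, map_zero]; exact hp0.le
    | insert i T hi ih =>
      rw [Finset.prod_insert hi]
      exact near_mul hv hvp (near_zpow hv hvp (hA1 i) _) ih
  have rootτ : ∀ T : Finset (Fin n), (∏ i ∈ T, τ i ^ (-c i)) ^ M = 1 := by
    intro T
    rw [← Finset.prod_pow]
    refine Finset.prod_eq_one fun i _ => ?_
    rw [← zpow_natCast, ← zpow_mul, mul_comm, zpow_mul, zpow_natCast, hτM, one_zpow]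
  set R := ∏ i, τ i ^ (-c i) with hR
  have hRM : R ^ M = 1 := rootτ univ
  have vR : v R = 1 := val_root hM hRM
  set ζ₁ := R * ζ with hζ₁
  have vζ₁ : v ζ₁ = 1 := by rw [hζ₁, map_mul, vR, vζ, one_mul]
  have hs1 : v (s - ζ₁) ≤ v (p : ℂ) := by
    have e1 : s - ζ₁ = (s - (∏ i, lam i ^ (-c i)) * ζ) + ζ₁ * (∏ i, A i ^ (-c i) - 1) := by
      rw [hprod, hζ₁]
      ring
    rw [e1]
    refine (hv _ _).trans (max_le hs ?_)
    rw [map_mul, vζ₁, one_mul]
    exact nearA univ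
  have hpow : ζ₁ ^ (g * M) = 1 := by
    rw [hζ₁, mul_pow, mul_comm g M, pow_mul, hRM, one_pow, one_mul, mul_comm M g, pow_mul, hζ.pow_eq_one, one_pow]
  have hord : 0 < orderOf ζ₁ := orderOf_pos_iff.2 (isOfFinOrder_iff_pow_eq_one.2
    ⟨g * M, Nat.mul_pos hg hM, hpow⟩)
  have hgle : g ≤ orderOf ζ₁ * M := by
    refine Nat.le_of_dvd (Nat.mul_pos hord hM) (hζ.dvd_of_pow_eq_one _ ?_)
    have h3 : ζ₁ ^ (orderOf ζ₁ * M) = 1 := by rw [pow_mul, pow_orderOf_eq_one, one_pow]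
    have h4 : R ^ (orderOf ζ₁ * M) = 1 := by rw [mul_comm, pow_mul, hRM, one_pow]
    rw [hζ₁, mul_pow, ← hζ₁, h4, one_mul] at h3
    exact h3
  have vs : v s = 1 := by
    rw [v_eq_of_sub_lt hv (x := s) (c := ζ₁) (by rw [vζ₁]; exact hs1.trans_lt hvp), vζ₁]
  -- the relations
  have hz1 : ∀ i, z i = 0 → (Pi.single e (-1) : Fin n → ℤ) i = 0 := fun i hi => by
    rw [Pi.single_eq_of_ne (fun h => hze (by rw [← h]; exact hi))]
  have hz2 : ∀ i, z i = 0 → bvec e f al be i = 0 := fun i hi => by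
    rw [bvec, if_neg (fun h => hze (by rw [← h]; exact hi)), if_neg (fun h => hzf (by rw [← h]; exact hi))]
  have p1 : ∏ i, z i ^ (Pi.single e (-1) : Fin n → ℤ) i = w := by
    rw [prod_single, zpow_neg_one]
  have p2 : ∏ i, z i ^ bvec e f al be i = y := prod_bvec hef al be
  have k1 := h1 z hz (fun i hi => ⟨(hz1 i hi).ge, (hzc i hi).ge⟩) (by rw [p1]; exact vw.le) vs.le
  have k2 := h2 z hz (fun i hi => ⟨(hz2 i hi).ge, (hzc i hi).ge⟩) (by rw [p2]; exact vy.le) vs.le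
  have k3 := h3 z hz (fun i hi => ⟨(hz1 i hi).ge, (hz2 i hi).ge⟩) (by rw [p1]; exact vw.le)
    (by rw [p2]; exact vy.le)
  rw [p1] at k1 k3
  rw [p2] at k2 k3
  refine hgle.trans (Nat.mul_le_mul_right M ?_)
  refine hG m w y s ζ₁ _ vw vy k1 k2 k3 hs1 hord (IsPrimitiveRoot.orderOf ζ₁) fun _ => ?_
  obtain ⟨ζ', ε, a', d, b1, b2, b3, b4, ⟨j', b5, b5'⟩, b6⟩ := pair_polar hv hc0 hcp hvp (hl e) (hl f) (ha e)
    (ha f) hf hfe hN'
  -- the unit
  set U : ℂ := ((1 + ε) * A f ^ (a' + d) * (A e ^ a')⁻¹) ^ al with hU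
  have hU1 : v (U - 1) ≤ v (p : ℂ) := by
    refine near_pow hv hvp (near_mul hv hvp (near_mul hv hvp (by rw [add_sub_cancel_left]; exact b6)
      (near_pow hv hvp (hA1 f) _)) (near_inv hv hvp (near_pow hv hvp (hA1 e) _))) al
  refine ⟨(ζ' * τ f ^ (a' + d) * (τ e ^ a')⁻¹) ^ al, U - 1, a', d, b1, b2, b3, ?_, ⟨j' * M, Nat.mul_pos b5 hM, ?_⟩, hU1⟩
  · -- the relation
    have e1 : (τ e * A e * z e) ^ a' * ((p : ℂ) ^ m) ^ d = (τ f * A f * z f) ^ (a' + d) * ζ' * (1 + ε) := by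
      rw [← hlA, ← hlA, mul_assoc ((p : ℂ) ^ m) (lam e), mul_assoc ((p : ℂ) ^ m) (lam f), mul_pow, b4,
        mul_pow ((p : ℂ) ^ m) (lam f * z f), pow_add ((p : ℂ) ^ m)]
      ring
    have t1 := pow_ne_zero a' (hτ0 e)
    have t2 := pow_ne_zero a' (hA0 e)
    have t3 := pow_ne_zero (a' + d) (hτ0 f)
    have t4 := pow_ne_zero (a' + d) (hA0 f)
    have e2 : z e ^ a' * ((p : ℂ) ^ m) ^ d = z f ^ (a' + d) * (ζ' * τ f ^ (a' + d) * (τ e ^ a')⁻¹) *
        ((1 + ε) * A f ^ (a' + d) * (A e ^ a')⁻¹) := by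
      rw [mul_pow, mul_pow, mul_pow, mul_pow] at e1
      field_simp
      linear_combination e1
    set R' : ℂ := ζ' * τ f ^ (a' + d) * (τ e ^ a')⁻¹ with hR'
    have e3 : z e ^ (a' * al) * (p : ℂ) ^ (m * (d * al)) = z f ^ ((a' + d) * al) * R' ^ al * U := by
      rw [hU, pow_mul (z e), pow_mul (z f), show m * (d * al) = m * d * al by ring, pow_mul (p : ℂ),
        pow_mul (p : ℂ), ← mul_pow, ← mul_pow, ← mul_pow, e2]
    have s1 : y ^ (a' + d) * w ^ ((a' + d) * be) = (z f ^ ((a' + d) * al))⁻¹ := by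
      rw [hy, hw, mul_pow, inv_pow, inv_pow, ← pow_mul, ← pow_mul, mul_comm be, mul_comm al]
      have := pow_ne_zero ((a' + d) * be) hze
      field_simp
    rw [s1, add_sub_cancel, hw, inv_pow]
    have s2 := pow_ne_zero ((a' + d) * al) hzf
    have s3 := pow_ne_zero (a' * al) hze
    field_simp
    linear_combination e3
  · rw [← pow_mul, mul_comm al, pow_mul]
    have e1 : (ζ' * τ f ^ (a' + d) * (τ e ^ a')⁻¹) ^ (j' * M) = 1 := by
      have e2 : ∀ (t : ℂ), t ^ M = 1 → ∀ r : ℕ, (t ^ r) ^ (j' * M) = 1 := fun t ht r => by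
        rw [← pow_mul, show r * (j' * M) = M * (r * j') by ring, pow_mul, ht, one_pow]
      rw [mul_pow, mul_pow, pow_mul ζ', b5', one_pow, one_mul, e2 _ (hτM f), one_mul, inv_pow, e2 _ (hτM e), inv_one]
    rw [e1, one_pow]

end Pool.Agent.Helper20.PL
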