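import Pool.Agent.Helper20.PL.Unif
import Pool.Agent.Helper11.AB.Defs

/-! # The interface of helper11 -/

open Finset

namespace Pool.Agent.Helper20.PL
open Pool.Agent.Helper11.ZP Pool.Agent.Helper11.ZU Pool.Agent.Helper20.ZD Pool.Agent.Helper11.LC
  Pool.Agent.Helper69.DL Pool.Agent.Helper36.DL Pool.Agent.Helper22.DL Pool.Agent.Helper20.DL
  Pool.Agent.Helper20.NB

variable {n : ℕ} {v : AbsoluteValue ℂ ℝ}

/-- exact relations -/
lemma holdsInt_of_holds {p : ℕ} {H : MvPolynomial (Fin 2) ℤ} {V : Set (Fin n → ℂ)} {a b : Fin n → ℤ}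
    (h : Holds H V a b) : HoldsInt v p H V a b := fun z hz h0 _ _ => by
  rw [h z hz h0, map_zero]
  exact v.nonneg _

/-- two absolute values on one of finitely many lines -/
lemma trop_of {x y : ℝ} (hy : 1 ≤ y) (hyx : y < x) {a b : ℤ} (hab : (a, b) ≠ 0) {K : ℕ} (hK : 1 ≤ K)
    (hb : |b| ≤ K) (h : x ^ a * y ^ b = 1) :
    ∃ al be : ℕ, be < al ∧ al ≤ K ∧ x ^ be = y ^ al := by
  have hx1 : 1 < x := hy.trans_lt hyx
  have hx0 : 0 < x := zero_lt_one.trans hx1
  have hy0 : 0 < y := zero_lt_one.trans_le hy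
  -- the case of a nonnegative exponent
  have key : ∀ a b : ℤ, (a, b) ≠ 0 → 0 ≤ a → |b| ≤ K → x ^ a * y ^ b = 1 →
      ∃ al be : ℕ, be < al ∧ al ≤ K ∧ x ^ be = y ^ al := by
    intro a b hab ha hb h
    have h1 : x ^ a = y ^ (-b) := by
      rw [zpow_neg]
      exact eq_inv_of_mul_eq_one_left h
    obtain ⟨be, rfl⟩ := Int.eq_ofNat_of_zero_le ha
    rcases Nat.eq_zero_or_pos be with rfl | hbe
    · refine ⟨1, 0, by omega, hK, ?_⟩
      rw [pow_zero, pow_one]
      have hb0 : b ≠ 0 := fun h0 => hab (by rw [h0]; rfl)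
      by_contra hne
      have hy1 : 1 < y := lt_of_le_of_ne hy hne
      rw [Int.natCast_zero, zpow_zero] at h1
      have h2 := (zpow_right_injective₀ hy0 hy1.ne') (h1.symm.trans (zpow_zero y).symm)
      omega
    · have hb1 : (be : ℤ) < -b := by
        by_contra hcon
        push Not at hcon
        have h2 : y ^ (-b) ≤ y ^ (be : ℤ) := zpow_le_zpow_right₀ hy hcon
        rw [← h1, zpow_natCast, zpow_natCast] at h2
        have h3 : y ^ be < x ^ be := pow_lt_pow_left₀ hyx hy0.le hbe.ne'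
        linarith
      obtain ⟨al, hal⟩ := Int.eq_ofNat_of_zero_le (a := -b) (by omega)
      have hb2 := (abs_le.1 hb).1
      refine ⟨al, be, by omega, by omega, ?_⟩
      rw [hal, zpow_natCast, zpow_natCast] at h1
      exact h1
  rcases le_total 0 a with h0 | h0
  · exact key a b hab h0 hb h
  · refine key (-a) (-b) ?_ (by omega) (by rw [abs_neg]; exact hb) ?_
    · intro h1
      rw [Prod.mk_eq_zero] at h1
      exact hab (by rw [Prod.mk_eq_zero]; omega)
    · rw [zpow_neg, zpow_neg, ← mul_inv, h, inv_one]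

/-- the interface of helper11 gives the interface of this folder -/
theorem localPol_of {p K : ℕ} (hK : 1 ≤ K) {T : Finset (ℤ × ℤ)} (hT : ∀ c ∈ T, |c.1| ≤ K ∧ |c.2| ≤ K)
    {Z : Set (Fin n → ℂ)} (h : Pool.Agent.Helper11.AB.LocalPol v p K T Z) : LocalPol v p K Z := by
  refine ⟨fun a b ha hb hab => ?_, fun z hz e f hef hf hfe => ?_⟩
  · obtain ⟨H, h1, h2⟩ := h.rel a b ha hb hab
    exact ⟨H, h2, holdsInt_of_holds h1⟩
  · obtain ⟨c, hc, hc0, hc1⟩ := h.trop z hz e f hef (ne_of_v one_pos (hf.trans hfe.le)) (ne_of_v one_pos hf)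
    exact trop_of hf hfe (a := c.1) (b := c.2) hc0 hK (hT c hc).2 hc1

/-- a bound of the exponents in `T` -/
lemma exists_bound (T : Finset (ℤ × ℤ)) : ∃ K : ℕ, 1 ≤ K ∧ ∀ c ∈ T, |c.1| ≤ K ∧ |c.2| ≤ K := by
  refine ⟨T.sup (fun c => c.1.natAbs + c.2.natAbs) + 1, by omega, fun c hc => ?_⟩
  have h1 : c.1.natAbs + c.2.natAbs ≤ T.sup (fun c => c.1.natAbs + c.2.natAbs) :=
    Finset.le_sup (f := fun c : ℤ × ℤ => c.1.natAbs + c.2.natAbs) hc
  rw [Int.abs_eq_natAbs, Int.abs_eq_natAbs]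
  constructor <;> omega

/-- **UnifP from the interface of helper11** -/
theorem unifP_of (hv : IsNonarchimedean v) {p : ℕ} (hp : p.Prime) (hvp : v (p : ℂ) < 1) {K : ℕ} (hK : 1 ≤ K)
    {T : Finset (ℤ × ℤ)} (hT : ∀ c ∈ T, |c.1| ≤ K ∧ |c.2| ≤ K) {Z : Set (Fin n → ℂ)}
    (h : Pool.Agent.Helper11.AB.LocalPol v p K T Z) : UnifP v p Z :=
  unifP hv hp hvp hK (localPol_of hK hT h)

end Pool.Agent.Helper20.PL
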