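import Pool.Agent.Helper20.DL.ExcM

/-! # The exceptional coordinates at a polar point -/

open Finset

namespace Pool.Agent.Helper20.PL
open Pool.Agent.Helper20.ZD Pool.Agent.Helper11.LC Pool.Agent.Helper20.DL

variable {v : AbsoluteValue ℂ ℝ}

/-- **step 0**: the part of order prime to `p` -/
theorem exc_step0P (hv : IsNonarchimedean v) {p : ℕ} (hp : p.Prime) (hvp : v (p : ℂ) < 1)
    {H : MvPolynomial (Fin 2) ℤ} (hH : BotUnit v H) :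
    ∃ N₀ : ℕ, 0 < N₀ ∧ ∀ (w s ζ : ℂ) (g : ℕ), v w < 1 → v (ev H w s) ≤ v (p : ℂ) →
      v (s - ζ) ≤ v (p : ℂ) → 0 < g → IsPrimitiveRoot ζ g →
      ∃ (η ξ : ℂ) (k : ℕ), ζ = η * ξ ∧ η ^ N₀ = 1 ∧ IsPrimitiveRoot ξ (p ^ k) ∧ g ≤ N₀ * p ^ k := by
  classical
  obtain ⟨N₀, hN₀, hN⟩ := exists_order hv hp hvp
    (C := ((inY H 0).roots.toFinset : Finset ℂ)) (Finset.finite_toSet _) (by
        intro c hc
        rw [Finset.mem_coe, Multiset.mem_toFinset] at hc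
        exact special_alg hc)
  refine ⟨N₀, hN₀, ?_⟩
  intro w s ζ g hw hH0 hs hg hζ
  obtain ⟨k, N, hpN, rfl⟩ := Nat.exists_eq_pow_mul_and_not_dvd hg.ne' p hp.ne_one
  have hcop : Nat.Coprime p N := (Nat.Prime.coprime_iff_not_dvd hp).2 hpN
  have hN0 : 0 < N := Nat.pos_of_mul_pos_left hg
  obtain ⟨η, ξ, hη, hξ, hηξ, hord⟩ := Pool.Agent.Helper69.DL.exists_decomp hp hcop hζ.pow_eq_one
  have hξ' : IsPrimitiveRoot ξ (p ^ k) := by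
    have e1 : p ^ k ∣ orderOf ξ := hord k (by rw [← hζ.eq_orderOf]; exact ⟨N, rfl⟩)
    have e2 : orderOf ξ ∣ p ^ k := orderOf_dvd_of_pow_eq_one hξ
    rw [Nat.dvd_antisymm e1 e2]
    exact IsPrimitiveRoot.orderOf ξ
  have vζ : v ζ = 1 := val_root hg hζ.pow_eq_one
  have vs : v s = 1 := by
    rw [v_eq_of_sub_lt hv (x := s) (c := ζ) (by rw [vζ]; exact lt_of_le_of_lt hs hvp), vζ]
  obtain ⟨r, hr, hr1⟩ := near_specialM hv hH hvp hw vs hH0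
  have vη : v η = 1 := val_root hN0 hη
  have vξ : v (ξ - 1) < 1 := Pool.Agent.Helper69.DL.root_sub_lt hv hp hvp hξ
  have hη0 : η ^ N₀ = 1 := by
    refine hN η N hN0 hpN hη ⟨r, ?_, ?_⟩
    · rw [Finset.mem_coe, Multiset.mem_toFinset]
      exact hr
    · have e1 : η - r = (s - r) - (s - ζ) - η * (ξ - 1) := by
        rw [hηξ]
        ring
      rw [e1]
      refine lt_of_le_of_lt (v_sub_le hv _ _) (max_lt (lt_of_le_of_lt (v_sub_le hv _ _) (max_lt hr1 ?_)) ?_)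
      · exact lt_of_le_of_lt hs hvp
      · rw [map_mul, vη, one_mul]
        exact vξ
  refine ⟨η, ξ, k, hηξ, hη0, hξ', ?_⟩
  refine Nat.le_of_dvd (Nat.mul_pos hN₀ (pow_pos hp.pos _)) (hζ.dvd_of_pow_eq_one _ ?_)
  rw [hηξ, mul_pow, pow_mul, hη0, one_pow, one_mul, mul_comm, pow_mul, hξ, one_pow]

/-- **step 2** -/
theorem exc_step2P (hv : IsNonarchimedean v) {p : ℕ} (hp : p.Prime) (hvp : v (p : ℂ) < 1) {al be : ℕ}
    (hab : be < al) {y₁ v₁ : ℂ} (hy₁ : IsAlgebraic ℚ y₁) (hv₁ : IsAlgebraic ℚ v₁) {ρ ρe : ℝ} (hρ : ρ < 1)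
    (hρe : ρe < 1) :
    ∃ ρ' : ℝ, ρ' < 1 ∧ ∀ (m : ℕ) (w y ζ' ε : ℂ) (a d k : ℕ), v w < 1 → w ≠ 0 → v y = 1 → 0 < a → 0 < d →
        Nat.Coprime a d →
        y ^ (a + d) * w ^ ((a + d) * be) * p ^ (m * (d * al)) = w ^ (a * al) * ζ' * (1 + ε) →
        (∃ j, 0 < j ∧ ζ' ^ j = 1) → v ε ≤ ρe → v (w ^ p ^ k / y₁ - 1) ≤ ρ →
        v (y ^ p ^ k / v₁ - 1) ≤ ρ → ∃ (ζ₆ : ℂ) (j : ℕ), 0 < j ∧ ζ₆ ^ j = 1 ∧ v (y - ζ₆) ≤ ρ' := by
  classical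
  have hp0 : 0 < v (p : ℂ) := v.pos (by exact_mod_cast hp.ne_zero)
  have hpne : (p : ℂ) ≠ 0 := by exact_mod_cast hp.ne_zero
  by_cases hy1 : v y₁ < 1 ∧ y₁ ≠ 0 ∧ v v₁ = 1
  swap
  · refine ⟨0, zero_lt_one, ?_⟩
    intro m w y ζ' ε a d k hw hw0 hy ha hd hcop hrel hζ hε h1 h2
    exfalso
    apply hy1
    have h3 : v (w ^ p ^ k / y₁) = 1 := v_one_of_near hv (h1.trans_lt hρ)
    have h3' : v (y ^ p ^ k / v₁) = 1 := v_one_of_near hv (h2.trans_lt hρ)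
    have h4 : y₁ ≠ 0 := by
      rintro rfl
      rw [div_zero, map_zero] at h3
      exact zero_ne_one h3
    have h4' : v₁ ≠ 0 := by
      rintro rfl
      rw [div_zero, map_zero] at h3'
      exact zero_ne_one h3'
    refine ⟨?_, h4, ?_⟩
    · rw [map_div₀, div_eq_one_iff_eq ((AbsoluteValue.ne_zero_iff v).2 h4)] at h3
      rw [← h3, map_pow]
      exact pow_lt_one₀ (v.nonneg _) hw (pow_pos hp.pos _).ne'
    · rw [map_div₀, div_eq_one_iff_eq ((AbsoluteValue.ne_zero_iff v).2 h4')] at h3'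
      rw [← h3', map_pow, hy, one_pow]
  obtain ⟨hy1, hy0, hv11⟩ := hy1
  have hv10 : v₁ ≠ 0 := by
    rintro rfl
    rw [map_zero] at hv11
    exact zero_ne_one hv11
  obtain ⟨κ', l, hκ', -, hl⟩ := v_alg hv hp hvp hy0 hy₁ le_rfl
  have hl0 : 0 < l := by
    by_contra hcon
    push Not at hcon
    have h1 : 1 ≤ v (p : ℂ) ^ l := one_le_zpow_of_nonpos₀ hp0 hvp.le hcon
    have h2 : v y₁ ^ κ' < 1 := pow_lt_one₀ (v.nonneg _) hy1 hκ'.ne'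
    rw [hl] at h2
    linarith
  obtain ⟨κ, rfl⟩ := Int.eq_ofNat_of_zero_le hl0.le
  have hκ : 0 < κ := by exact_mod_cast hl0
  rw [zpow_natCast] at hl
  obtain ⟨t, rfl⟩ : ∃ t, al = be + t := ⟨al - be, by omega⟩
  have ht : 0 < t := by omega
  have hal : 0 < be + t := by omega
  -- the constant
  set c₀ : ℂ := (y₁ ^ (κ' * t) / (v₁ ^ κ' * (p : ℂ) ^ (κ * t))) ^ (be + t) with hc₀
  have hc₀' : IsAlgebraic ℚ c₀ ∧ v c₀ = 1 := by
    constructor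
    · have e3 : IsAlgebraic ℚ (p : ℂ) := isAlgebraic_natCast p
      have e4 := hy₁
      have e5 := hv₁
      rw [← mem_algebraicClosure_iff] at e3 e4 e5 ⊢
      exact pow_mem (div_mem (pow_mem e4 _) (mul_mem (pow_mem e5 _) (pow_mem e3 _))) _
    · rw [hc₀, map_pow, map_div₀, map_mul, map_pow, map_pow, map_pow, hv11, one_pow, one_mul, pow_mul (v y₁),
        hl, ← pow_mul, div_self (pow_ne_zero _ hp0.ne'), one_pow]
  obtain ⟨K, ρ₅, hK, hρ₅0, hρ₅1, hKS⟩ := exists_near_power hv hp hvp ({c₀} : Finset ℂ) (by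
    intro x hx
    rw [Finset.mem_singleton.1 hx]
    exact hc₀')
  have hKc := hKS c₀ (Finset.mem_singleton_self _)
  set ρ₃ := max (max ρ ρe) ρ₅ with hρ₃
  have hρ₃1 : ρ₃ < 1 := max_lt (max_lt hρ hρe) hρ₅1
  have hρ₃0 : 0 ≤ ρ₃ := le_max_of_le_right hρ₅0
  set N₁ := (be + t) * κ * K with hN₁
  have hN₁0 : 0 < N₁ := Nat.mul_pos (Nat.mul_pos hal hκ) hK
  obtain ⟨ρ', h0', h1', h2'⟩ := exists_rho hρ₃1 hρ₃0 N₁
  refine ⟨ρ', h1', ?_⟩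
  intro m w y ζ' ε a d k hw hw0 hy ha hd hcop hrel ⟨j, hj, hζj⟩ hε h1 h2
  set q := p ^ k with hq
  have hq0 : 0 < q := pow_pos hp.pos _
  have vW : v w ^ q = v y₁ := by
    have h3 : v (w ^ q / y₁) = 1 := v_one_of_near hv (h1.trans_lt hρ)
    rw [map_div₀, div_eq_one_iff_eq ((AbsoluteValue.ne_zero_iff v).2 hy0), map_pow] at h3
    exact h3
  have hne : ∀ {x : ℂ}, v x = 1 → x ≠ 0 := by
    rintro x hx rfl
    rw [map_zero] at hx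
    exact zero_ne_one hx
  have vζ : v ζ' = 1 := val_root hj hζj
  have hζ0 : ζ' ≠ 0 := hne vζ
  have vε : v (1 + ε) = 1 := v_one_of_near hv (by rw [add_sub_cancel_left]; exact hε.trans_lt hρe)
  have h1ε := hne vε
  have hy00 : y ≠ 0 := hne hy
  have hw00 : 0 < v w := v.pos hw0
  -- the exponents
  have hexp : κ * t * a = d * (κ * be + m * (be + t) * q * κ') := by
    have e1 := congrArg (fun x => v x ^ (q * κ')) hrel
    simp only [map_mul, map_pow, hy, one_pow, one_mul, vζ, vε, mul_one] at e1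
    have e2 : ∀ r : ℕ, (v w ^ r) ^ (q * κ') = v (p : ℂ) ^ (κ * r) := fun r => by
      rw [← pow_mul, show r * (q * κ') = q * κ' * r by ring, pow_mul, pow_mul, vW, hl, ← pow_mul]
    rw [mul_pow, e2, e2, ← pow_mul, ← pow_add] at e1
    have e3 := pow_inj hp0 hvp e1
    have e4 : κ * t * a + κ * be * a = κ * (a * (be + t)) := by ring
    have e5 : κ * ((a + d) * be) + m * (d * (be + t)) * (q * κ') =
      d * (κ * be + m * (be + t) * q * κ') + κ * be * a := by ring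
    omega
  obtain ⟨G, hG⟩ : d ∣ κ * t := hcop.symm.dvd_of_dvd_mul_right (by rw [hexp]; exact Dvd.intro _ rfl)
  have hG0 : 0 < G := by
    rcases Nat.eq_zero_or_pos G with h | h
    · rw [h, mul_zero] at hG
      exact absurd hG (Nat.mul_pos hκ ht).ne'
    · exact h
  have hGa : a * G = κ * be + m * (be + t) * q * κ' := by
    have e1 : d * (a * G) = d * (κ * be + m * (be + t) * q * κ') := by
      rw [← hexp, hG]; ring
    exact Nat.eq_of_mul_eq_mul_left hd e1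
  -- the factors near one
  set u₁ := w ^ q / y₁ with hu₁
  set u₂ := y ^ q / v₁ with hu₂
  have n0 : v ((1 + ε) - 1) ≤ ρ₃ := by
    rw [add_sub_cancel_left]
    exact hε.trans (le_max_of_le_left (le_max_right _ _))
  have n1 : v (u₁ - 1) ≤ ρ₃ := h1.trans (le_max_of_le_left (le_max_left _ _))
  have n2 : v (u₂ - 1) ≤ ρ₃ := h2.trans (le_max_of_le_left (le_max_left _ _))
  have hu₁0 : u₁ ≠ 0 := div_ne_zero (pow_ne_zero _ hw0) hy0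
  have hu₂0 : u₂ ≠ 0 := div_ne_zero (pow_ne_zero _ hy00) hv10
  set u := (1 + ε) ^ G * u₁ ^ (m * κ' * (be + t) * t) * (u₂ ^ (m * κ' * (be + t)))⁻¹ with hu
  have n4 : v (u - 1) ≤ ρ₃ := by
    refine near_mul hv hρ₃1 (near_mul hv hρ₃1 (near_pow hv hρ₃1 n0 G)
      (near_pow hv hρ₃1 n1 _)) (near_inv hv hρ₃1 (near_pow hv hρ₃1 n2 _))
  -- the relation
  have hkey : y ^ ((be + t) * κ) = ζ' ^ G * c₀ ^ m * u := by
    have e1 := congrArg (fun x => x ^ G) hrel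
    simp only [mul_pow, ← pow_mul] at e1
    have f1 : (a + d) * G = (be + t) * κ + q * (m * κ' * (be + t)) := by
      rw [add_mul, hGa, ← hG]; ring
    have f2 : (a + d) * be * G = (κ * be * (be + t)) + q * (m * κ' * (be + t) * be) := by
      have : (a + d) * be * G = be * ((a + d) * G) := by ring
      rw [this, f1]; ring
    have f3 : m * (d * (be + t)) * G = m * (κ * t * (be + t)) := by
      rw [hG]; ring
    have f4 : a * (be + t) * G = (κ * be * (be + t)) + q * (m * κ' * (be + t) * (be + t)) := by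
      have : a * (be + t) * G = (be + t) * (a * G) := by ring
      rw [this, hGa]; ring
    rw [f1, f2, f3, f4, pow_add y, pow_add w, pow_add w, pow_mul y q, pow_mul w q, pow_mul w q] at e1
    have e4 : w ^ q = y₁ * u₁ := by rw [hu₁]; field_simp
    have e5 : y ^ q = v₁ * u₂ := by rw [hu₂]; field_simp
    rw [e4, e5] at e1
    set X := m * κ' * (be + t) with hX
    have e6 : (y₁ * u₁) ^ (X * (be + t)) = (y₁ * u₁) ^ (X * be) * (y₁ * u₁) ^ (X * t) := by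
      rw [← pow_add]; congr 1; ring
    rw [e6] at e1
    have g1 : (v₁ * u₂) ^ X ≠ 0 := pow_ne_zero _ (mul_ne_zero hv10 hu₂0)
    have g2 : w ^ (κ * be * (be + t)) ≠ 0 := pow_ne_zero _ hw0
    have g3 : (y₁ * u₁) ^ (X * be) ≠ 0 := pow_ne_zero _ (mul_ne_zero hy0 hu₁0)
    have g4 : (p : ℂ) ^ (m * (κ * t * (be + t))) ≠ 0 := pow_ne_zero _ hpne
    have e7 : y ^ ((be + t) * κ) = (y₁ * u₁) ^ (X * t) * ζ' ^ G * (1 + ε) ^ G /
        ((v₁ * u₂) ^ X * (p : ℂ) ^ (m * (κ * t * (be + t)))) := by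
      rw [eq_div_iff (mul_ne_zero g1 g4)]
      refine mul_right_cancel₀ (mul_ne_zero g2 g3) ?_
      calc y ^ ((be + t) * κ) * ((v₁ * u₂) ^ X * (p : ℂ) ^ (m * (κ * t * (be + t)))) *
            (w ^ (κ * be * (be + t)) * (y₁ * u₁) ^ (X * be))
          = y ^ ((be + t) * κ) * (v₁ * u₂) ^ X * (w ^ (κ * be * (be + t)) * (y₁ * u₁) ^ (X * be)) *
            (p : ℂ) ^ (m * (κ * t * (be + t))) := by ring
        _ = _ := by rw [e1]; ring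
    have g5 : c₀ ^ m = y₁ ^ (X * t) / (v₁ ^ X * (p : ℂ) ^ (m * (κ * t * (be + t)))) := by
      rw [hc₀, ← pow_mul, div_pow, mul_pow, ← pow_mul, ← pow_mul, ← pow_mul,
        show κ' * t * ((be + t) * m) = X * t by rw [hX]; ring,
        show κ' * ((be + t) * m) = X by rw [hX]; ring,
        show κ * t * ((be + t) * m) = m * (κ * t * (be + t)) by ring]
    rw [e7, g5, hu, mul_pow y₁, mul_pow v₁]
    have g6 : u₂ ^ X ≠ 0 := pow_ne_zero _ hu₂0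
    have g7 : v₁ ^ X ≠ 0 := pow_ne_zero _ hv10
    field_simp
  obtain ⟨ζ₅, hζ₅⟩ := IsAlgClosed.exists_pow_nat_eq ((ζ' ^ G) ^ K) hN₁0
  have hζ5j : ζ₅ ^ (N₁ * j) = 1 := by
    rw [pow_mul, hζ₅, ← pow_mul, ← pow_mul, show G * (K * j) = j * (G * K) by ring, pow_mul, hζj, one_pow]
  have hj5 : 0 < N₁ * j := Nat.mul_pos hN₁0 hj
  have vζ5 : v ζ₅ = 1 := val_root hj5 hζ5j
  have hζ50 : ζ₅ ≠ 0 := hne vζ5
  have hx : (y / ζ₅) ^ N₁ = (c₀ ^ K) ^ m * u ^ K := by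
    rw [div_pow, hζ₅, hN₁, pow_mul, hkey, mul_pow, mul_pow, ← pow_mul c₀, ← pow_mul c₀, mul_comm m K]
    have h3 : (ζ' ^ G) ^ K ≠ 0 := pow_ne_zero _ (pow_ne_zero _ hζ0)
    field_simp
  obtain ⟨ω, hω, hωn⟩ := root_extract (v := v) hN₁0 hρ₃1 (x := y / ζ₅)
    (by
      rw [hx]
      exact near_mul hv hρ₃1 (near_pow hv hρ₃1 (hKc.trans (le_max_right _ _)) m) (near_pow hv hρ₃1 n4 K))
  have hfin : v (y / ζ₅ - ω) ≤ ρ' :=
    (lt_of_pow_lt_pow_left₀ N₁ h0' (lt_of_le_of_lt hωn h2')).le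
  refine ⟨ω * ζ₅, N₁ * j, hj5, ?_, ?_⟩
  · rw [mul_pow, hζ5j, mul_one, pow_mul, hω, one_pow]
  · have h3 : y - ω * ζ₅ = ζ₅ * (y / ζ₅ - ω) := by field_simp
    rw [h3, map_mul, vζ5, one_mul]
    exact hfin

/-- **the exceptional coordinates at a polar point** -/
theorem exc_boundedP (hv : IsNonarchimedean v) {p : ℕ} (hp : p.Prime) (hp4 : 4 ≤ p) (hvp : v (p : ℂ) < 1)
    {D : ℕ} (hpD : 64 * D ^ 2 ≤ p) {al be : ℕ} (hab : be < al) {H₁ H₂ F : MvPolynomial (Fin 2) ℤ}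
    (hH₁D : ∀ m ∈ H₁.support, m 0 ≤ D ∧ m 1 ≤ D) (hH₁ : RowUnit v H₁)
    (hH₂D : ∀ m ∈ H₂.support, m 0 ≤ D ∧ m 1 ≤ D) (hH₂ : NoCoset v H₂)
    (hFD : ∀ m ∈ F.support, m 1 ≤ D) (hF : BotUnit v F) :
    ∃ G₀ : ℕ, ∀ (m : ℕ) (w y s ζ : ℂ) (g : ℕ), v w < 1 → v y = 1 → v (ev H₁ w s) ≤ v (p : ℂ) →
      v (ev H₂ y s) ≤ v (p : ℂ) → v (ev F w y) ≤ v (p : ℂ) → v (s - ζ) ≤ v (p : ℂ) → 0 < g →
      IsPrimitiveRoot ζ g →
      (v (p : ℂ) < v w → ∃ (ζ' ε : ℂ) (a d : ℕ), 0 < a ∧ 0 < d ∧ Nat.Coprime a d ∧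
        y ^ (a + d) * w ^ ((a + d) * be) * p ^ (m * (d * al)) = w ^ (a * al) * ζ' * (1 + ε) ∧
        (∃ j, 0 < j ∧ ζ' ^ j = 1) ∧ v ε ≤ v (p : ℂ)) → g ≤ G₀ := by
  classical
  have hp0 : 0 < v (p : ℂ) := v.pos (by exact_mod_cast hp.ne_zero)
  have hμ : Tame v p (1 : ℂ) := ⟨isAlgebraic_one, map_one v, by rw [one_pow, sub_self, map_zero]; exact hp0.le⟩
  obtain ⟨⟨m₀, a1, a2⟩, m₁, a3, a4⟩ := hH₁
  obtain ⟨m₂, b1, b2⟩ := id hF
  obtain ⟨N₀, hN₀, hstep0⟩ := exc_step0P hv hp hvp (H := H₁) ⟨m₀, a1, a2⟩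
  obtain ⟨r, T, ρ, L, hρ, hL, hTalg, hstep1⟩ := exc_step1M hv hp hvp hμ hN₀ hH₁D hFD a1 a2 a3 a4 b1 b2
  -- the bound for one pair of constants
  obtain ⟨t₁, ht₁⟩ := unif_bound T (P := fun τ t => ∃ (m : ℕ) (w y s η ξ ζ' ε : ℂ) (a d k : ℕ),
      w ≠ 0 ∧ v w < 1 ∧ v y = 1 ∧ v (ev H₂ y s) ≤ v (p : ℂ) ∧ v (ev F w y) ≤ v (p : ℂ) ∧
      v (s - 1 * (η * ξ)) ≤ v (p : ℂ) ∧ η ^ N₀ = 1 ∧ IsPrimitiveRoot ξ (p ^ (t + 1)) ∧ 0 < a ∧ 0 < d ∧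
      Nat.Coprime a d ∧
      y ^ (a + d) * w ^ ((a + d) * be) * p ^ (m * (d * al)) = w ^ (a * al) * ζ' * (1 + ε) ∧
      (∃ j, 0 < j ∧ ζ' ^ j = 1) ∧ v ε ≤ v (p : ℂ) ∧ v (w ^ p ^ k / τ.1 - 1) ≤ ρ ∧
      v (y ^ p ^ k / τ.2 - 1) ≤ ρ) (by
    intro τ hτ
    obtain ⟨c1, c2⟩ := hTalg τ hτ
    obtain ⟨ρ', hρ', hstep2⟩ := exc_step2P hv hp hvp hab c1 c2 hρ hvp
    obtain ⟨t₀, ht₀⟩ := exc_step3M hv hp hp4 hvp hμ hN₀ hpD hH₂ hH₂D hF (isAlgebraic_one (R := ℚ) (A := ℂ))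
      (map_one v) hρ'
    refine ⟨t₀, ?_⟩
    rintro t ⟨m, w, y, s, η, ξ, ζ', ε, a, d, k, d0, d1, d2, d3, d4, d5, d6, d7, d8, d9, d10, d11, d12, d13,
      d14, d15⟩
    obtain ⟨ζ₆, j, e1, e2, e3⟩ := hstep2 m w y ζ' ε a d k d1 d0 d2 d8 d9 d10 d11 d12 d13 d14 d15
    exact ht₀ w y s ζ₆ η ξ t j d1 d2 d4 d3 d5 d6 d7 e1 e2 (by rw [mul_one]; exact e3))
  refine ⟨N₀ * p ^ (max r t₁ + 1), ?_⟩
  intro m w y s ζ g hw hy h1 h2 h3 hs hg hζ hcond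
  obtain ⟨η, ξ, k, hηξ, hη, hξ, hgle⟩ := hstep0 w s ζ g hw h1 hs hg hζ
  refine hgle.trans (Nat.mul_le_mul_left N₀ (Nat.pow_le_pow_right hp.pos ?_))
  by_contra hcon
  push Not at hcon
  obtain ⟨t, rfl⟩ : ∃ t, k = t + 1 := ⟨k - 1, by omega⟩
  have hrt : r ≤ t := by have := le_max_left r t₁; omega
  have ht1 : t₁ ≤ t := by have := le_max_right r t₁; omega
  have hs' : v (s - 1 * (η * ξ)) ≤ v (p : ℂ) := by rw [one_mul, ← hηξ]; exact hs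
  obtain ⟨hpw, τ, hτ, k1, k2⟩ := hstep1 w y s η ξ t hw hy h1 h3 hs' hη hξ hrt
  obtain ⟨ζ', ε, a, d, ha, hd, hcop, hrel, hζ', hε⟩ := hcond (hL.trans_le hpw)
  have hw0 : w ≠ 0 := by
    rintro rfl
    rw [map_zero] at hpw
    linarith
  have := ht₁ τ hτ t ⟨m, w, y, s, η, ξ, ζ', ε, a, d, t - r, hw0, hw, hy, h2, h3,
    hs', hη, hξ, ha, hd, hcop, hrel, hζ', hε, k1, k2⟩
  omega

end Pool.Agent.Helper20.PL
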