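import Pool.Agent.Helper20.PL.Exc
import Pool.Agent.Helper20.DL.CaseCA
import Pool.Agent.Helper22.DL.CaseA

/-! # Isogenous pairs at a polar point -/

open Finset

namespace Pool.Agent.Helper20.PL
open Pool.Agent.Helper11.ZP Pool.Agent.Helper11.ZU Pool.Agent.Helper20.ZD Pool.Agent.Helper11.LC
  Pool.Agent.Helper69.DL Pool.Agent.Helper36.DL Pool.Agent.Helper22.DL Pool.Agent.Helper20.DL

variable {n : ℕ} {v : AbsoluteValue ℂ ℝ}

lemma ne_of_v {x : ℂ} {r : ℝ} (hr : 0 < r) (h : r ≤ v x) : x ≠ 0 := by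
  rintro rfl
  rw [map_zero] at h
  linarith

/-- two isogenous coordinates, `v(z_k) = v(z_l) ≥ 1` -/
lemma ratio_nearP (hv : IsNonarchimedean v) {c κ : ℝ} (hc0 : 0 < c) (hcκ : c ≤ κ) (hκ : κ < 1)
    {lk ll ak al : ℂ} (hlk : v lk * c = 1) (hll : v ll * c = 1) (hak : v (ak / lk) ≤ κ)
    (hal : v (al / ll) ≤ κ) {zk zl : ℂ} (hk : 1 ≤ v zk) (hkl : v zk = v zl) {N : ℕ}
    (h : CyclicIsog N (lk * zk + ak) (ll * zl + al)) :
    ∃ (g : ℕ) (ζ : ℂ), 0 < g ∧ N = g ^ 2 ∧ IsPrimitiveRoot ζ g ∧ v (zk / zl - ll / lk * ζ) ≤ κ := by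
  have hN : 0 < N := Nat.pos_of_ne_zero fun h0 => not_isog_zero (h0 ▸ h)
  have hc : c < 1 := hcκ.trans_lt hκ
  have vk : v lk = c⁻¹ := eq_inv_of_mul_eq_one_left hlk
  have vl : v ll = c⁻¹ := eq_inv_of_mul_eq_one_left hll
  have hc1 : 1 < c⁻¹ := (one_lt_inv₀ hc0).2 hc
  have hl : 1 ≤ v zl := by rw [← hkl]; exact hk
  have hlk0 : lk ≠ 0 := ne_of_v (inv_pos.2 hc0) vk.ge
  have hll0 : ll ≠ 0 := ne_of_v (inv_pos.2 hc0) vl.ge
  have hzk0 := ne_of_v one_pos hk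
  have hzl0 := ne_of_v one_pos hl
  have hk0 : 0 < v zk := v.pos hzk0
  have hl0 : 0 < v zl := v.pos hzl0
  set bk := ak / lk with hbk
  set bl := al / ll with hbl
  have ek : lk * zk + ak = lk * (zk + bk) := by rw [hbk]; field_simp
  have el : ll * zl + al = ll * (zl + bl) := by rw [hbl]; field_simp
  have wk : v (zk + bk) = v zk := v_add_eq hv (hak.trans_lt (hκ.trans_le hk))
  have wl : v (zl + bl) = v zl := v_add_eq hv (hal.trans_lt (hκ.trans_le hl))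
  have hwl0 : zl + bl ≠ 0 := ne_of_v one_pos (by rw [wl]; exact hl)
  have hwk0 : zk + bk ≠ 0 := ne_of_v one_pos (by rw [wk]; exact hk)
  rw [ek, el] at h
  have hxk : v (lk * (zk + bk)) = c⁻¹ * v zk := by rw [map_mul, vk, wk]
  have hxl : v (ll * (zl + bl)) = c⁻¹ * v zk := by rw [map_mul, vl, wl, hkl]
  have hx1 : 1 < c⁻¹ * v zk := lt_of_lt_of_le hc1 (le_mul_of_one_le_right (inv_pos.2 hc0).le hk)
  obtain ⟨g, ζ, hg, hNg, hζ, hd⟩ := pair_square hv (by rw [hxk]; exact hx1) (hxk.trans hxl.symm) hN h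
  refine ⟨g, ζ, hg, hNg, hζ, ?_⟩
  have hd' : v (ζ - lk * (zk + bk) / (ll * (zl + bl))) ≤ κ := by
    refine hd.trans ?_
    rw [hxk, mul_inv, inv_inv]
    exact (mul_le_of_le_one_right hc0.le (inv_le_one_of_one_le₀ hk)).trans hcκ
  have h1 : zk / zl - ll / lk * ζ = (zk * bl - zl * bk) / (zl * (zl + bl)) -
      ll / lk * (ζ - lk * (zk + bk) / (ll * (zl + bl))) := by
    field_simp
    ring
  rw [h1]
  refine (v_sub_le hv _ _).trans (max_le ?_ ?_)
  · rw [map_div₀, map_mul, wl, div_le_iff₀ (mul_pos hl0 hl0)]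
    have e1 : v (zk * bl - zl * bk) ≤ κ * v zl := by
      refine (v_sub_le hv _ _).trans (max_le ?_ ?_)
      · rw [map_mul, hkl, mul_comm]
        exact mul_le_mul_of_nonneg_right hal hl0.le
      · rw [map_mul, mul_comm]
        exact mul_le_mul_of_nonneg_right hak hl0.le
    refine e1.trans ?_
    have hκ0 : 0 ≤ κ := hc0.le.trans hcκ
    nlinarith [mul_le_mul_of_nonneg_left hl (mul_nonneg hκ0 hl0.le)]
  · rw [map_mul, map_div₀, vk, vl, div_self (inv_ne_zero hc0.ne'), one_mul]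
    exact hd'

/-- the two exceptional coordinates: `1 ≤ v(z_f) < v(z_e)` -/
lemma pair_polar (hv : IsNonarchimedean v) {c κ : ℝ} (hc0 : 0 < c) (hcκ : c ≤ κ) (hκ : κ < 1)
    {le lf ae af : ℂ} (hle : v le * c = 1) (hlf : v lf * c = 1)
    (hae : v (ae / le) ≤ κ) (haf : v (af / lf) ≤ κ) {ze zf : ℂ} (hf : 1 ≤ v zf) (hef : v zf < v ze) {N : ℕ}
    (h : CyclicIsog N (le * ze + ae) (lf * zf + af) ∨ CyclicIsog N (lf * zf + af) (le * ze + ae)) :
    ∃ (ζ' ε : ℂ) (a d : ℕ), 0 < a ∧ 0 < d ∧ Nat.Coprime a d ∧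
      (le * ze) ^ a = (lf * zf) ^ (a + d) * ζ' * (1 + ε) ∧ (∃ j, 0 < j ∧ ζ' ^ j = 1) ∧ v ε ≤ κ := by
  have hN : 0 < N := by
    rcases h with h | h <;> exact Nat.pos_of_ne_zero fun h0 => not_isog_zero (h0 ▸ h)
  have hc : c < 1 := hcκ.trans_lt hκ
  have hκ0 : 0 < κ := hc0.trans_le hcκ
  have ve : v le = c⁻¹ := eq_inv_of_mul_eq_one_left hle
  have vf : v lf = c⁻¹ := eq_inv_of_mul_eq_one_left hlf
  have hc1 : 1 < c⁻¹ := (one_lt_inv₀ hc0).2 hc
  have he : 1 < v ze := hf.trans_lt hef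
  have hle0 : le ≠ 0 := ne_of_v (inv_pos.2 hc0) ve.ge
  have hlf0 : lf ≠ 0 := ne_of_v (inv_pos.2 hc0) vf.ge
  have hze0 := ne_of_v one_pos he.le
  have hzf0 := ne_of_v one_pos hf
  have hxe : v (le * ze) = c⁻¹ * v ze := by rw [map_mul, ve]
  have hxf : v (lf * zf) = c⁻¹ * v zf := by rw [map_mul, vf]
  have hci := inv_pos.2 hc0
  have hxf1 : 1 < v (lf * zf) := by
    rw [hxf]
    exact lt_of_lt_of_le hc1 (le_mul_of_one_le_right hci.le hf)
  have hxef : v (lf * zf) < v (le * ze) := by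
    rw [hxf, hxe]
    exact mul_lt_mul_of_pos_left hef hci
  have hxe1 : 1 < v (le * ze) := hxf1.trans hxef
  have e1 : v (le * ze + ae - le * ze) ≤ κ * v (le * ze) := by
    rw [add_sub_cancel_left]
    have e2 : ae = ae / le * le := by field_simp
    rw [e2, map_mul, map_mul]
    refine mul_le_mul hae ?_ (v.nonneg _) hκ0.le
    exact le_mul_of_one_le_right (v.nonneg _) he.le
  have e2 : v (lf * zf + af - lf * zf) ≤ κ * v (lf * zf) := by
    rw [add_sub_cancel_left]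
    have e2 : af = af / lf * lf := by field_simp
    rw [e2, map_mul, map_mul]
    refine mul_le_mul haf ?_ (v.nonneg _) hκ0.le
    exact le_mul_of_one_le_right (v.nonneg _) hf
  have i1 : (v (le * ze))⁻¹ ≤ κ := by
    rw [hxe, mul_inv, inv_inv]
    exact (mul_le_of_le_one_right hc0.le (inv_le_one_of_one_le₀ he.le)).trans hcκ
  have i2 : (v (lf * zf))⁻¹ ≤ κ := by
    rw [hxf, mul_inv, inv_inv]
    exact (mul_le_of_le_one_right hc0.le (inv_le_one_of_one_le₀ hf)).trans hcκ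
  have hX0 : le * ze ≠ 0 := mul_ne_zero hle0 hze0
  have hY0 : lf * zf ≠ 0 := mul_ne_zero hlf0 hzf0
  have hlt : ∀ {r t : ℕ}, 0 < t → v (le * ze) ^ r = v (lf * zf) ^ t → r < t := by
    intro r t ht hrt
    by_contra hcon
    push Not at hcon
    have h1 : v (lf * zf) ^ t < v (le * ze) ^ t := pow_lt_pow_left₀ hxef (v.nonneg _) ht.ne'
    have h2 : v (le * ze) ^ t ≤ v (le * ze) ^ r := pow_le_pow_right₀ hxe1.le hcon
    linarith
  rcases h with h | h
  · obtain ⟨b, a, g, ζ, hb, ha, hcop, hg, hval, -, hζ, hnear⟩ := pair_shape hv hκ (c := le * ze) (c' := lf * zf)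
      (x := le * ze + ae) (y := lf * zf + af) hxe1 hxf1 hN e1 e2 h
    have hab := hlt hb hval
    obtain ⟨d, rfl⟩ : ∃ d, b = a + d := ⟨b - a, by omega⟩
    have vζ : v ζ = 1 := val_root hg hζ.pow_eq_one
    have hζ0 : ζ ≠ 0 := ne_of_v one_pos vζ.ge
    have hY := pow_ne_zero (a + d) hY0
    refine ⟨ζ, (le * ze) ^ a / (lf * zf) ^ (a + d) / ζ - 1, a, d, ha, by omega,
      (Nat.coprime_self_add_left.1 hcop).symm, ?_, ⟨g, hg, hζ.pow_eq_one⟩, ?_⟩
    · field_simp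
      ring
    · have h1 : (le * ze) ^ a / (lf * zf) ^ (a + d) / ζ - 1 =
          -((ζ - (le * ze) ^ a / (lf * zf) ^ (a + d)) / ζ) := by
        field_simp
        ring
      rw [h1, v_neg, map_div₀, vζ, div_one]
      exact hnear.trans (max_le le_rfl (max_le i1 i2))
  · obtain ⟨a, b, g, ζ, ha, hb, hcop, hg, hval, -, hζ, hnear⟩ := pair_shape hv hκ (c := lf * zf) (c' := le * ze)
      (x := lf * zf + af) (y := le * ze + ae) hxf1 hxe1 hN e2 e1 h
    have hab := hlt hb hval.symm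
    obtain ⟨d, rfl⟩ : ∃ d, b = a + d := ⟨b - a, by omega⟩
    have vζ : v ζ = 1 := val_root hg hζ.pow_eq_one
    have hζ0 : ζ ≠ 0 := ne_of_v one_pos vζ.ge
    have hY := pow_ne_zero (a + d) hY0
    have hX := pow_ne_zero a hX0
    set ω := (lf * zf) ^ (a + d) / (le * ze) ^ a with hω
    have hω1 : v (ω / ζ - 1) ≤ κ := by
      have h1 : ω / ζ - 1 = -((ζ - ω) / ζ) := by
        field_simp
        ring
      rw [h1, v_neg, map_div₀, vζ, div_one]
      exact hnear.trans (max_le le_rfl (max_le i2 i1))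
    have hω0 : ω / ζ ≠ 0 := div_ne_zero (div_ne_zero hY hX) hζ0
    have vω : v (ω / ζ) = 1 := v_one_of_near hv (hω1.trans_lt hκ)
    refine ⟨ζ⁻¹, (ω / ζ)⁻¹ - 1, a, d, ha, by omega, (Nat.coprime_self_add_right.1 hcop),
      ?_, ⟨g, hg, by rw [inv_pow, hζ.pow_eq_one, inv_one]⟩, ?_⟩
    · rw [add_sub_cancel, hω]
      field_simp
    · have h1 : (ω / ζ)⁻¹ - 1 = -((ω / ζ - 1) / (ω / ζ)) := by
        have hω00 : ω ≠ 0 := div_ne_zero hY hX
        field_simp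
        ring
      rw [h1, v_neg, map_div₀, vω, div_one]
      exact hω1

end Pool.Agent.Helper20.PL
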