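import Pool.Agent.Helper20.PL.Pol
import Pool.Agent.Helper36.DL.Unif

/-! # Polar points: the theorem -/

open Finset

namespace Pool.Agent.Helper20.PL
open Pool.Agent.Helper11.ZP Pool.Agent.Helper11.ZU Pool.Agent.Helper20.ZD Pool.Agent.Helper11.LC
  Pool.Agent.Helper69.DL Pool.Agent.Helper36.DL Pool.Agent.Helper22.DL Pool.Agent.Helper20.DL
  Pool.Agent.Helper20.NB

variable {n : ℕ} {v : AbsoluteValue ℂ ℝ}

/-- **the torsion part at the polar points**: a monomial of degree zero in the coordinates of `x`, near a root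
of unity, if two coordinates of different absolute values are isogenous -/
theorem torsionP {M : ℕ} (hM : 0 < M) (hv : IsNonarchimedean v) {p : ℕ} (hp : p.Prime) (hvp : v (p : ℂ) < 1)
    {K : ℕ} (hK : 0 < K) {V : Set (Fin n → ℂ)} (hloc : LocalPol v p K V) :
    ∃ B : ℕ, ∀ (m : ℕ) (lam a : Fin n → ℂ), Root v p M m lam a → ∀ z ∈ V, ∀ (e f : Fin n) (N' : ℕ),
      e ≠ f → 1 ≤ v (z f) → v (z f) < v (z e) →
      (CyclicIsog N' (lam e * z e + a e) (lam f * z f + a f) ∨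
        CyclicIsog N' (lam f * z f + a f) (lam e * z e + a e)) →
      ∀ c : Fin n → ℤ, c ≠ 0 → ∑ i, c i = 0 → (∀ i, |c i| ≤ K) → (∀ i, z i = 0 → c i = 0) →
      ∀ (ζ : ℂ) (g : ℕ), 0 < g → IsPrimitiveRoot ζ g →
        v (∏ i, z i ^ c i - (∏ i, lam i ^ (-c i)) * ζ) ≤ v (p : ℂ) → g ≤ B := by
  classical
  let C : Finset (Fin n → ℤ) := Fintype.piFinset fun _ => Finset.Icc (-(K : ℤ)) K
  let I : Finset ((Fin n × Fin n) × (ℕ × ℕ) × (Fin n → ℤ)) :=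
    (univ ×ˢ univ) ×ˢ ((Finset.range (K + 1) ×ˢ Finset.range (K + 1)) ×ˢ C)
  have h1 : ∀ q : (Fin n × Fin n) × (ℕ × ℕ) × (Fin n → ℤ), ∃ B : ℕ, q.1.1 ≠ q.1.2 → q.2.1.2 < q.2.1.1 →
      q.2.1.1 ≤ K → q.2.2 ≠ 0 → ∑ i, q.2.2 i = 0 → (∀ i, |q.2.2 i| ≤ K) →
      ∀ (m : ℕ) (lam a τ : Fin n → ℂ), Norm v p m lam a → (∀ i, τ i ^ M = 1) →
      (∀ i, v ((p : ℂ) ^ m * lam i - τ i) ≤ v (p : ℂ)) → ∀ z ∈ V, (∀ i, z i = 0 → q.2.2 i = 0) →
      1 ≤ v (z q.1.2) → v (z q.1.2) < v (z q.1.1) → v (z q.1.1) ^ q.2.1.2 = v (z q.1.2) ^ q.2.1.1 → ∀ (N' : ℕ),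
      (CyclicIsog N' (lam q.1.1 * z q.1.1 + a q.1.1) (lam q.1.2 * z q.1.2 + a q.1.2) ∨
        CyclicIsog N' (lam q.1.2 * z q.1.2 + a q.1.2) (lam q.1.1 * z q.1.1 + a q.1.1)) →
        ∀ (ζ : ℂ) (g : ℕ), 0 < g →
        IsPrimitiveRoot ζ g → v (∏ i, z i ^ q.2.2 i - (∏ i, lam i ^ (-q.2.2 i)) * ζ) ≤ v (p : ℂ) → g ≤ B := by
    rintro ⟨⟨e, f⟩, ⟨al, be⟩, c⟩
    by_cases h : e ≠ f ∧ be < al ∧ al ≤ K ∧ c ≠ 0 ∧ ∑ i, c i = 0 ∧ (∀ i, |c i| ≤ K)
    · obtain ⟨hef, hab, halK, hc0, hcs, hcK⟩ := h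
      have hone : ∀ i, |(Pi.single e (-1) : Fin n → ℤ) i| ≤ K := fun i =>
        (abs_single (Or.inr rfl) i).trans (by exact_mod_cast hK)
      obtain ⟨H₁, a1, a2⟩ := hloc.rel (Pi.single e (-1)) c hone hcK (indep_single hc0 hcs e (by norm_num))
      obtain ⟨H₂, b1, b2⟩ := hloc.rel (bvec e f al be) c (abs_bvec hab halK) hcK (indep_bvec hc0 hcs hef hab)
      obtain ⟨F, c1, c2⟩ := hloc.rel (Pi.single e (-1)) (bvec e f al be) hone (abs_bvec hab halK)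
        (indep_single_bvec hef hab)
      obtain ⟨B, hB⟩ := polar_one hv hp hvp hef hab hcs a1 b1 c1 hM
      exact ⟨B, fun _ _ _ _ _ _ => hB V a2 b2 c2⟩
    · exact ⟨0, fun a b c d e f => absurd ⟨a, b, c, d, e, f⟩ h⟩
  choose B hB using h1
  refine ⟨I.sup B, fun m lam a hR z hz e f N' hef hf hfe hN' c hc0 hcs hcK hzc ζ g hg hζ hs => ?_⟩
  obtain ⟨al, be, hab, halK, hval⟩ := hloc.trop z hz e f hef hf hfe
  obtain ⟨τ, hτM, hτn⟩ := hR.root
  refine (hB ((e, f), (al, be), c) hef hab halK hc0 hcs hcK m lam a τ hR.norm hτM hτn z hz hzc hf hfe hval N' hN'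
    ζ g hg hζ hs).trans (Finset.le_sup (f := B) ?_)
  simp only [I, C, mem_product, mem_univ, true_and, mem_range, Fintype.mem_piFinset, mem_Icc]
  exact ⟨⟨by omega, by omega⟩, fun i => abs_le.1 (hcK i)⟩

lemma sum_diff {k l : Fin n} (hkl : k ≠ l) : ∑ i, diff k l i = 0 := by
  classical
  rw [← Finset.add_sum_erase _ _ (mem_univ k), ← Finset.add_sum_erase _ _ (mem_erase.2 ⟨hkl.symm, mem_univ l⟩),
    Finset.sum_eq_zero, add_zero]
  · simp [diff, hkl.symm, hkl]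
  · intro x hx
    rw [mem_erase, mem_erase] at hx
    simp [diff, hx.1, hx.2.1]

/-- **two coordinates of the same absolute value at a polar point** -/
theorem rootP {M : ℕ} (hM : 0 < M) (hv : IsNonarchimedean v) {p : ℕ} (hp : p.Prime) (hvp : v (p : ℂ) < 1)
    {K : ℕ} (hK : 0 < K) {V : Set (Fin n → ℂ)} (hloc : LocalPol v p K V) :
    ∃ B : ℕ, ∀ (m : ℕ) (lam a : Fin n → ℂ), Root v p M m lam a → ∀ z ∈ V, ∀ (e f i j : Fin n) (N N' : ℕ),
      e ≠ f → i ≠ j → 1 ≤ v (z f) → v (z f) < v (z e) → 1 ≤ v (z i) → v (z i) = v (z j) →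
      CyclicIsog N (lam i * z i + a i) (lam j * z j + a j) →
      (CyclicIsog N' (lam e * z e + a e) (lam f * z f + a f) ∨
        CyclicIsog N' (lam f * z f + a f) (lam e * z e + a e)) → N ≤ B := by
  have hp0 : 0 < v (p : ℂ) := AbsoluteValue.pos_iff v |>.2 (by exact_mod_cast hp.ne_zero)
  have hpne : (p : ℂ) ≠ 0 := by exact_mod_cast hp.ne_zero
  obtain ⟨B, hB⟩ := torsionP hM hv hp hvp hK hloc
  refine ⟨B ^ 2, fun m lam a hR z hz e f i j N N' hef hij hf hfe hi hzij hN hN' => ?_⟩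
  have haff := hR.norm
  have hc0 : 0 < v (p : ℂ) ^ m := pow_pos hp0 m
  have hcp : v (p : ℂ) ^ m ≤ v (p : ℂ) := haff.pow_le hp0 hvp
  have hl : ∀ i, v (lam i) * v (p : ℂ) ^ m = 1 := fun i => by
    have := haff.lam_one i
    rwa [map_mul, map_pow, mul_comm] at this
  have ha : ∀ i, v (a i / lam i) ≤ v (p : ℂ) := fun i => by
    have e1 : a i / lam i = ((p : ℂ) ^ m * a i) / ((p : ℂ) ^ m * lam i) :=
      (mul_div_mul_left _ _ (pow_ne_zero m hpne)).symm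
    rw [e1, map_div₀, haff.lam_one i, div_one]
    exact haff.a_le i
  obtain ⟨g, ζ, hg, hNg, hζ, hd⟩ := ratio_nearP hv hc0 hcp hvp (hl i) (hl j) (ha i) (ha j) hi hzij hN
  have hzi : z i ≠ 0 := ne_of_v one_pos hi
  have hzj : z j ≠ 0 := ne_of_v one_pos (hzij ▸ hi)
  rw [hNg]
  refine Nat.pow_le_pow_left (hB m lam a hR z hz e f N' hef hf hfe hN' (diff i j) ?_ (sum_diff hij)
    (fun t => (abs_diff_le i j t).trans (by exact_mod_cast hK)) ?_ ζ g hg hζ ?_) 2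
  · intro h0
    have h1 := congrFun h0 i
    simp [diff, hij] at h1
  · intro t ht
    have h1 : t ≠ i := fun h => hzi (h ▸ ht)
    have h2 : t ≠ j := fun h => hzj (h ▸ ht)
    simp [diff, h1, h2]
  · have e1 : ∏ t, lam t ^ (-diff i j t) = lam j / lam i := by
      have e2 : ∀ t, lam t ^ (-diff i j t) = (lam t)⁻¹ ^ diff i j t := fun t => by
        rw [inv_zpow', ]
      rw [Finset.prod_congr rfl fun t _ => e2 t]
      rw [prod_diff (fun t => (lam t)⁻¹) (inv_ne_zero (haff.lam_ne hp0 i)) (inv_ne_zero (haff.lam_ne hp0 j))]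
      rw [inv_div_inv]
    rw [prod_diff z hzi hzj, e1]
    exact hd

/-- `AffAt` is a class of roots -/
lemma root_of_affAt (hv : IsNonarchimedean v) {p : ℕ} (hp : p.Prime) (hvp : v (p : ℂ) < 1) {m : ℕ}
    {lam a : Fin n → ℂ} (h : AffAt v p m lam a) : Root v p (p - 1) m lam a := by
  have hp1 : 0 < p - 1 := by have := hp.two_le; omega
  refine ⟨⟨h.one_le, h.lam_one, h.a_le⟩, ?_⟩
  have hcop : (p - 1).Coprime p := by
    rw [Nat.coprime_comm, Nat.Prime.coprime_iff_not_dvd hp]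
    intro hd
    have := Nat.le_of_dvd hp1 hd
    omega
  have h1 : ∀ i, ∃ τ : ℂ, τ ^ (p - 1) = 1 ∧ v ((p : ℂ) ^ m * lam i - τ) ≤ v (p : ℂ) := fun i =>
    teich hv hp hvp hp1 hcop (near_fermat hp (h.lam_one i) (zp_frob hv hp (h.lam_mem i)))
  choose τ hτ using h1
  exact ⟨τ, fun i => (hτ i).1, fun i => (hτ i).2⟩

/-- polar points: two coordinates of the same absolute value, uniformly -/
def UnifP (v : AbsoluteValue ℂ ℝ) (p : ℕ) (V : Set (Fin n → ℂ)) : Prop :=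
  ∃ B : ℕ, ∀ (m : ℕ) (lam a : Fin n → ℂ), AffAt v p m lam a → ∀ z ∈ V, ∀ (e f i j : Fin n) (N N' : ℕ),
    e ≠ f → i ≠ j → 1 ≤ v (z f) → v (z f) < v (z e) → 1 ≤ v (z i) → v (z i) = v (z j) →
    CyclicIsog N (lam i * z i + a i) (lam j * z j + a j) →
    (CyclicIsog N' (lam e * z e + a e) (lam f * z f + a f) ∨
      CyclicIsog N' (lam f * z f + a f) (lam e * z e + a e)) → N ≤ B

/-- **row Y1** -/
theorem unifP (hv : IsNonarchimedean v) {p : ℕ} (hp : p.Prime) (hvp : v (p : ℂ) < 1)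
    {K : ℕ} (hK : 0 < K) {V : Set (Fin n → ℂ)} (hloc : LocalPol v p K V) : UnifP v p V := by
  have hp1 : 0 < p - 1 := by have := hp.two_le; omega
  obtain ⟨B, hB⟩ := rootP hp1 hv hp hvp hK hloc
  exact ⟨B, fun m lam a h => hB m lam a (root_of_affAt hv hp hvp h)⟩

end Pool.Agent.Helper20.PL
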